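import Pool.Agent.TH330.CSR.FVec

/-!
MP_1cb47b_co, partial answer to Q1: on every diagonal `f₂ = f₀ + 1 + e` of the region, the realized
pairs with large `f₀` are determined.

The number of edges of an arrangement is the number of incident pairs (vertex, line), and the number
of 2-faces is given by Euler's relation `f₀ - f₁ + f₂ = 1`.
-/

set_option autoImplicit false
open scoped LinearAlgebra.Projectivization

namespace Pool.Agent.Results.MP_1cb47b_co.NearSimpleDiagonals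

/-- For `f₀ ≥ C(3e,2) + 4` the pair `(f₀, f₂) = (f₀, f₀ + 1 + e)` is realized if and only if
`f₀ + Σ k(k+3)/2` is a binomial coefficient `C(n,2)` for some partition of `e` into parts `k`. -/
theorem result (e f₀ : ℕ) (h : (3 * e).choose 2 + 4 ≤ f₀) :
    (∃ A : Finset (ℙ ℝ (Fin 3 → ℝ)), 3 ≤ A.card ∧
      (¬ ∃ p : ℙ ℝ (Fin 3 → ℝ), ∀ L ∈ A, ∑ i, p.rep i * L.rep i = 0) ∧
      ({p : ℙ ℝ (Fin 3 → ℝ) |
        2 ≤ (A.filter (fun L => ∑ i, p.rep i * L.rep i = 0)).card}).ncard = f₀ ∧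
      ({s : ℙ ℝ (Fin 3 → ℝ) × ℙ ℝ (Fin 3 → ℝ) |
        2 ≤ (A.filter (fun L => ∑ i, s.1.rep i * L.rep i = 0)).card ∧
          s.2 ∈ A ∧ ∑ i, s.1.rep i * s.2.rep i = 0}).ncard + 1 = f₀ + (f₀ + 1 + e)) ↔
    ∃ (n : ℕ) (K : Multiset ℕ), (∀ k ∈ K, 0 < k) ∧ K.sum = e ∧
      f₀ + (K.map (fun k => k * (k + 3) / 2)).sum = n.choose 2 := by
  refine Iff.trans ?_ (Pool.TH330.CSR.fvec e f₀ h)
  constructor
  · rintro ⟨A, h1, h2, h3, h4⟩
    refine ⟨A, h1, h2, h3, ?_⟩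
    have h5 : ({s : ℙ ℝ (Fin 3 → ℝ) × ℙ ℝ (Fin 3 → ℝ) |
        2 ≤ (A.filter (fun L => ∑ i, s.1.rep i * L.rep i = 0)).card ∧
          s.2 ∈ A ∧ ∑ i, s.1.rep i * s.2.rep i = 0}).ncard = 2 * f₀ + e := by omega
    exact h5
  · rintro ⟨A, h1, h2, h3, h4⟩
    refine ⟨A, h1, h2, h3, ?_⟩
    have h5 : ({s : ℙ ℝ (Fin 3 → ℝ) × ℙ ℝ (Fin 3 → ℝ) |
        2 ≤ (A.filter (fun L => ∑ i, s.1.rep i * L.rep i = 0)).card ∧
          s.2 ∈ A ∧ ∑ i, s.1.rep i * s.2.rep i = 0}).ncard = 2 * f₀ + e := h4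
    exact (congrArg (fun t : ℕ => t + 1) h5).trans (by ring)

end Pool.Agent.Results.MP_1cb47b_co.NearSimpleDiagonals
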